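import Pool.Agent.N883.FG.Bk2

/-!
# Diagonal cubic hypersurfaces with `δ_T` in the classes of `D` and `1` modulo cubes
-/

set_option autoImplicit false
set_option linter.unusedSectionVars false
set_option linter.unusedVariables false
set_option linter.style.haveILetI false

open scoped Classical

namespace Pool.Agent.D0H43.KB

open Finset NumberField IsDedekindDomain WeierstrassCurve
open Pool.Agent.N883.DQ (BZ Dt)
open Pool.Agent.N883.FG (Good decAt bz_vr)
open Pool.Agent.Y696.CTK (ED Tri)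
open Pool.Agent.TH841.NF.D (Sha)

/-- `a` is nonzero, and `a` or `a / D` is a cube of the field of fractions -/
def InCl {R : Type} [CommRing R] (D a : R) : Prop :=
  ∃ y z : R, y ≠ 0 ∧ z ≠ 0 ∧ (a * y ^ 3 = z ^ 3 ∨ a * y ^ 3 = D * z ^ 3)

section field
variable {K : Type} [Field K] [NumberField K]

lemma tri_one [IsCyclotomicExtension {3} ℚ K] : Tri (1 : 𝓞 K) := by
  obtain ⟨⟨j, hj⟩, -⟩ := Pool.Agent.Y455.CTK.jex K
  have key : ∀ d : K, d = 1 → (Finite (ED d).toAffine.Point ∧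
      ∀ (n : ℕ) (x : Sha (ED d)), 3 ^ n • x = 0 → x = 0) := by
    rintro _ rfl
    exact ⟨Pool.Agent.Y696.CTE.fin_one, Pool.Agent.Y696.CTE.partsE.sh1 K j⟩
  exact key _ (map_one _)

theorem bz_inCl {D δ : 𝓞 K} (hD0 : D ≠ 0) (h1 : Tri (1 : 𝓞 K)) (hD : Tri D)
    (h : InCl D δ) : BZ (ED (δ : K)) := by
  obtain ⟨y, z, hy, hz, h⟩ := h
  have c0 : ∀ x : 𝓞 K, x ≠ 0 → (x : K) ≠ 0 := fun x hx h => hx (RingOfIntegers.ext (by rw [h]; rfl))
  have hyK := c0 y hy
  have hzK := c0 z hz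
  have hy3 : (y : K) ^ 3 ≠ 0 := pow_ne_zero 3 hyK
  set u : K := (z : K) / y with hu
  have hu0 : u ≠ 0 := div_ne_zero hzK hyK
  have key : ∀ (e : 𝓞 K), e ≠ 0 → Tri e → (δ : K) = (e : K) * u ^ 3 → BZ (ED (δ : K)) := by
    intro e he ht hee
    refine bz_vr (m := 0) hu0 (c0 e he) hee ht.1 fun k x hx => ?_
    rw [pow_zero, one_smul]
    exact ht.2 k x hx
  rcases h with h | h
  · refine key 1 one_ne_zero h1 ?_
    have := congrArg (fun x : 𝓞 K => (x : K)) h
    push_cast at this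
    have e1 : ((1 : 𝓞 K) : K) = 1 := map_one (algebraMap (𝓞 K) K)
    rw [e1, hu, div_pow, one_mul, eq_div_iff hy3, this]
  · refine key D hD0 hD ?_
    have := congrArg (fun x : 𝓞 K => (x : K)) h
    push_cast at this
    rw [hu, div_pow, ← mul_div_assoc, eq_div_iff hy3, this]

end field

/-- **The final statement.** -/
theorem good_of {K : Type} [Field K] [NumberField K] [IsCyclotomicExtension {3} ℚ K]
    {D : 𝓞 K} (hD0 : D ≠ 0) (ht : Tri D) (c : ℕ) (hc : c ≤ 2)
    (a : Fin (2 * c + 3) → 𝓞 K)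
    (ha : ∀ T : Finset (Fin (2 * c + 3)), T.card = c → InCl D (Dt a T)) :
    Good K c a :=
  ⟨fun v h3 hv => decAt hc a v h3 hv, fun T hT => bz_inCl hD0 tri_one ht (ha T hT)⟩

end Pool.Agent.D0H43.KB
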